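import Pool.Agent.Helper33.NS5

/-!
# The Charney-Davis inequality for ALL flag Gorenstein* complexes over `ℝ`, up to the bad faces

Let the flag complex of the finite graph `G` be nonacyclic and Gorenstein over the field of real numbers
(`HSph`: the links of all faces, including the empty face, have the real homology of spheres), of
dimension `d - 1`, `d = 2 m + 2`.  For `i ≥ m + 2` let `B i` be a set of vertices which contains all the
vertices whose links are not in the class `AQ (2 i - 3)` of the starting library.  There is no condition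
on `B i` itself.
-/

set_option autoImplicit false

namespace Pool.Agent.Results.MP_32beb3_co.BadVertices

open Pool.Agent.W907.SG Pool.Agent.TH652.Above
open Pool.Agent.Helper33.NS (cliqueNum)
open Pool.Agent.Helper33.NSF

/-- If `h_0, ..., h_d` is the `h`-vector then `(-1)^{d/2} (h_0 - h_1 + h_2 - ... + h_d)` is at least
`-(2^{m+1} f_{m+2} + 2^{m-1} f_{m+4} + 2^{m-3} f_{m+6} + ...)`, where `f_i` is the number of the faces
with `i` vertices all of whose vertices are in `B i`. -/
theorem result (m : ℕ) (V : Type) [Fintype V] [LinearOrder V] (G : SimpleGraph V)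
    (hS : HSph (2 * m + 2) G) (B : ℕ → Set V) (hB : GoodOutside G B (m + 2))
    (h : ℕ → ℚ) (hh : ∀ t : ℚ, ∑ i ∈ Finset.range (2 * m + 3), h i * t ^ i = hPoly G (2 * m + 2) t) :
    - ∑ j ∈ (Finset.range (m + 1)).filter Even,
      (2 : ℚ) ^ (m + 1 - j) * cliqueNum G (B (m + 2 + j)) (m + 2 + j) ≤
      (-1) ^ (m + 1) * ∑ i ∈ Finset.range (2 * m + 3), (-1) ^ i * h i := by
  have h0 : ∑ i ∈ Finset.range (2 * m + 3), (-1) ^ i * h i = 2 ^ (2 * m + 2) * chiW G := by
    rw [← hPoly_neg_one G hS, ← hh]
    exact Finset.sum_congr rfl fun i _ => mul_comm _ _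
  rw [h0]
  have h1 := charney_davis_bad G m hS B hB
  have h2 : (2 : ℚ) ^ (2 * m + 2) * (2 * badEven G B m) =
      ∑ j ∈ (Finset.range (m + 1)).filter Even,
        (2 : ℚ) ^ (m + 1 - j) * cliqueNum G (B (m + 2 + j)) (m + 2 + j) := by
    unfold badEven
    rw [Finset.mul_sum, Finset.mul_sum]
    refine Finset.sum_congr rfl fun j hj => ?_
    have hj' : j ≤ m := Nat.lt_succ_iff.1 (Finset.mem_range.1 (Finset.mem_filter.1 hj).1)
    have e : (2 : ℚ) ^ (2 * m + 2) * 2 = 2 ^ (m + 1 - j) * 2 ^ (m + 2 + j) := by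
      rw [← pow_succ, ← pow_add]
      congr 1
      omega
    have h3 : (2 : ℚ) ^ (m + 2 + j) ≠ 0 := by positivity
    field_simp
    linear_combination (cliqueNum G (B (m + 2 + j)) (m + 2 + j) : ℚ) * e
  rw [← h2]
  have h4 := mul_le_mul_of_nonneg_left h1 (by positivity : (0 : ℚ) ≤ 2 ^ (2 * m + 2))
  linarith

end Pool.Agent.Results.MP_32beb3_co.BadVertices
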